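import Pool.Agent.W534.FS4
import Pool.Agent.K1H13.G.Ten

/-!
# Semisimplicity of Frobenius on `H²` of a surface and Tate classes on the powers of the surface

Let `X` be a smooth projective surface over the field with `q = p ^ a` elements, `V = H²(X̄, Q̄_ℓ)`,
`b` its dimension. By the Künneth formula `V^{⊗ n}` is a direct summand of `H^{2n}(X̄^n)`. We
consider there the space of the Tate classes (the Frobenius of some finite extension with `q ^ m`
elements acts as multiplication by `q ^ (n m)`), the space of the generalised Tate classes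
(generalised eigenvectors; the dimension of this space is the multiplicity which the zeta function
sees), and the rank of the cup product on the Tate classes.

If Frobenius is semisimple on `V`, the three numbers are equal for all `n`. We show that otherwise
they are of the exact orders `n ^ (-1/2) : 1 : n ^ (-3/2)`, with constants which depend only
on `b`: for a single `n` a weak proportion of semisimple or of nondegenerate classes forces
Frobenius to be semisimple on `H²(X̄)`. The two ingredients are the theorem of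
Littlewood-Offord-Erdős with labels (the classes of the eigenvalues modulo roots of unity) and the
`sl₂`-triple of the tensor power of the unipotent part of Frobenius (helper files
`Pool.Agent.K1H13.G.*`).
-/

set_option autoImplicit false

open Module W534.FS
open scoped TensorProduct

universe u

namespace Pool.Agent.Results.MP_1fe969_ag.GrowthOnPowers

section Defs

variable {K M M' : Type u} [Field K] [AddCommGroup M] [Module K M] [AddCommGroup M'] [Module K M']

/-- The vectors which are multiplied by `c ^ m` by `F ^ m` for some `m > 0`. -/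
def eig (F : Module.End K M) (c : K) : Set M := {z | ∃ m, 0 < m ∧ (F ^ m) z = c ^ m • z}

/-- The generalised eigenvectors of `F ^ m` for `c ^ m` for some `m > 0`. -/
def genEig (F : Module.End K M) (c : K) : Set M :=
  {z | ∃ m, 0 < m ∧ ∃ k : ℕ, ((F ^ m - c ^ m • (1 : Module.End K M)) ^ k) z = 0}

/-- The radical of a form on a subspace. -/
def rad (B : M →ₗ[K] M →ₗ[K] K) (Z : Submodule K M) : Set M :=
  {z | z ∈ Z ∧ ∀ y ∈ Z, B z y = 0}

/-- The rank of a form on a subspace. -/
noncomputable def rank (B : M →ₗ[K] M →ₗ[K] K) (Z : Submodule K M) : ℕ :=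
  finrank K Z - Set.finrank K (rad B Z)

/-- The `n`-th tensor power. -/
def Pow (K M : Type u) [Field K] [AddCommGroup M] [Module K M] (n : ℕ) : Type u :=
  ⨂[K] (_ : Fin n), M

noncomputable instance (n : ℕ) : AddCommGroup (Pow K M n) :=
  (inferInstance : AddCommGroup (⨂[K] (_ : Fin n), M))

noncomputable instance (n : ℕ) : Module K (Pow K M n) :=
  (inferInstance : Module K (⨂[K] (_ : Fin n), M))

/-- The `n`-th tensor power of a linear map. -/
noncomputable def mapPow (f : M →ₗ[K] M') (n : ℕ) : Pow K M n →ₗ[K] Pow K M' n :=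
  PiTensorProduct.map fun _ => f

/-- The evaluation `(f₁ ⊗ ... ⊗ fₙ) (x₁ ⊗ ... ⊗ xₙ) = f₁ (x₁) ... fₙ (xₙ)`. -/
noncomputable def dualPow (K M : Type u) [Field K] [AddCommGroup M] [Module K M] (n : ℕ) :
    Pow K (Module.Dual K M) n →ₗ[K] Module.Dual K (Pow K M n) :=
  PiTensorProduct.dualDistrib (R := K) (M := fun _ : Fin n => M)

/-- The `n`-th tensor power of a form: the value at `x₁ ⊗ ... ⊗ xₙ`, `y₁ ⊗ ... ⊗ yₙ` is
`B(x₁, y₁) ... B(xₙ, yₙ)`. -/
noncomputable def formPow (B : M →ₗ[K] Module.Dual K M) (n : ℕ) :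
    Pow K M n →ₗ[K] Module.Dual K (Pow K M n) :=
  dualPow K M n ∘ₗ mapPow B n

end Defs

variable {p a : ℕ} {K V : Type u} [Field K] [AddCommGroup V] [Module K V] [Module.Finite K V]

/-- The Frobenius on the `n`-th tensor power of `H²(X̄)`. -/
noncomputable def frob (X : SurfaceH2 p a K V) (n : ℕ) : Module.End K (Pow K V n) := mapPow X.F n

/-- The cup product on the `n`-th tensor power of `H²(X̄)`: the product of `x₁ ⊗ ... ⊗ xₙ` and
`y₁ ⊗ ... ⊗ yₙ` is `(x₁ y₁) ... (xₙ yₙ)`. -/
noncomputable def cup (X : SurfaceH2 p a K V) (n : ℕ) :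
    Pow K V n →ₗ[K] Pow K V n →ₗ[K] K := formPow X.B n

/-- The Tate classes: the Frobenius over some finite extension, with `q ^ m` elements, acts as
multiplication by `(q ^ n) ^ m`. -/
def tate (X : SurfaceH2 p a K V) (n : ℕ) : Set (Pow K V n) :=
  eig (frob X n) (((p : K) ^ a) ^ n)

/-- The generalised Tate classes: the generalised eigenvectors for the same eigenvalues. -/
def gen (X : SurfaceH2 p a K V) (n : ℕ) : Set (Pow K V n) :=
  genEig (frob X n) (((p : K) ^ a) ^ n)

/-- The dimension of the space of the Tate classes. -/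
noncomputable def tateDim (X : SurfaceH2 p a K V) (n : ℕ) : ℕ := Set.finrank K (tate X n)

/-- The dimension of the space of the generalised Tate classes. -/
noncomputable def genDim (X : SurfaceH2 p a K V) (n : ℕ) : ℕ := Set.finrank K (gen X n)

/-- The rank of the cup product on a subspace of the `n`-th tensor power. -/
noncomputable def cupRank (X : SurfaceH2 p a K V) (n : ℕ) (Z : Submodule K (Pow K V n)) : ℕ :=
  rank (cup X n) Z

/-- The space of the Tate classes. -/
noncomputable def tateSpan (X : SurfaceH2 p a K V) (n : ℕ) : Submodule K (Pow K V n) :=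
  Submodule.span K (tate X n)

/-- `x` and `y` are of the same order, with the constant `C`. -/
def SameOrder (C x y : ℝ) : Prop := x ≤ C * y ∧ y ≤ C * x

/-- The semisimple case: all generalised Tate classes are Tate classes, and the cup product is
nondegenerate on them. -/
def AllEqual (X : SurfaceH2 p a K V) (n : ℕ) : Prop :=
  genDim X n = tateDim X n ∧ cupRank X n (tateSpan X n) = tateDim X n

/-- The nonsemisimple case: exact orders `n ^ (-1/2)` of the proportion of the Tate classes and
`n ^ (-3/2)` of the proportion of the rank of the cup product on them. -/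
def ExactOrders (C : ℝ) (X : SurfaceH2 p a K V) (n : ℕ) : Prop :=
  SameOrder C (genDim X n) (Real.sqrt n * tateDim X n) ∧
  SameOrder C (genDim X n) (Real.sqrt n ^ 3 * cupRank X n (tateSpan X n))

/-- The criteria: there are more Tate classes than in the nonsemisimple case, or there is a space
of Tate classes on which the rank of the cup product is larger than in the nonsemisimple case,
compared with the generalised Tate classes or with the Tate classes. -/
def Enough (C : ℝ) (X : SurfaceH2 p a K V) (n : ℕ) : Prop :=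
  C * genDim X n < Real.sqrt n * tateDim X n ∨ ∃ Z ≤ tateSpan X n,
    C * genDim X n < Real.sqrt n ^ 3 * cupRank X n Z ∨ C * tateDim X n < n * cupRank X n Z

section Proof

open Pool.Agent.K1H13.G

variable [CharZero K] (X : SurfaceH2 p a K V)

lemma q_ne (hp : p.Prime) : ((p : K) ^ a) ≠ 0 := pow_ne_zero _ (Nat.cast_ne_zero.2 hp.ne_zero)

/-- the normalised Frobenius -/
noncomputable def nF : Module.End K V := ((p : K) ^ a)⁻¹ • X.F

lemma frT_nF (n : ℕ) : frT (nF X) n = (((p : K) ^ a) ^ n)⁻¹ • frT X.F n := by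
  apply PiTensorProduct.ext
  ext x
  rw [LinearMap.compMultilinearMap_apply, LinearMap.compMultilinearMap_apply, frT_tprod,
    LinearMap.smul_apply, frT_tprod]
  have := (PiTensorProduct.tprod K : MultilinearMap K (fun _ : Fin n => V) _).map_smul_univ
    (fun _ => ((p : K) ^ a)⁻¹) fun i => X.F (x i)
  rw [Finset.prod_const, Finset.card_univ, Fintype.card_fin, inv_pow] at this
  exact this

lemma frT_pow (n m : ℕ) :
    frT (nF X) n ^ m = ((((p : K) ^ a) ^ n) ^ m)⁻¹ • frT X.F n ^ m := by
  rw [frT_nF, smul_pow, inv_pow]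

lemma tate_eq' (hp : p.Prime) (n : ℕ) :
    eig (frT X.F n) (((p : K) ^ a) ^ n) = tateS ⊤ (frT (nF X) n) := by
  ext z
  have h0 : (((p : K) ^ a) ^ n) ≠ 0 := pow_ne_zero _ (q_ne (a := a) (K := K) hp)
  constructor
  · rintro ⟨m, hm, h⟩
    refine ⟨Submodule.mem_top, m, hm, ?_⟩
    rw [frT_pow, LinearMap.smul_apply, h, smul_smul, inv_mul_cancel₀ (pow_ne_zero _ h0),
      one_smul]
  · rintro ⟨-, m, hm, h⟩
    refine ⟨m, hm, ?_⟩
    rw [frT_pow, LinearMap.smul_apply] at h
    have h1 := congrArg (fun z => (((p : K) ^ a) ^ n) ^ m • z) h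
    simp only [smul_smul, mul_inv_cancel₀ (pow_ne_zero m h0), one_smul] at h1
    exact h1

lemma tate_eq (hp : p.Prime) (n : ℕ) : tate X n = tateS ⊤ (frT (nF X) n) := tate_eq' X hp n

lemma gen_eq' (hp : p.Prime) (n : ℕ) :
    genEig (frT X.F n) (((p : K) ^ a) ^ n) = genS ⊤ (frT (nF X) n) := by
  ext z
  have h0 : (((p : K) ^ a) ^ n) ≠ 0 := pow_ne_zero _ (q_ne (a := a) (K := K) hp)
  have h1 : ∀ m k : ℕ, ((frT (nF X) n) ^ m - 1) ^ k =
      (((((p : K) ^ a) ^ n) ^ m)⁻¹) ^ k •
        (frT X.F n ^ m - (((p : K) ^ a) ^ n) ^ m • (1 : Module.End K _)) ^ k := by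
    intro m k
    rw [← smul_pow]
    congr 1
    rw [frT_pow, smul_sub, smul_smul, inv_mul_cancel₀ (pow_ne_zero _ h0), one_smul]
  constructor
  · rintro ⟨m, hm, k, h⟩
    refine ⟨Submodule.mem_top, m, hm, k, ?_⟩
    rw [h1, LinearMap.smul_apply, h, smul_zero]
  · rintro ⟨-, m, hm, k, h⟩
    refine ⟨m, hm, k, ?_⟩
    rw [h1, LinearMap.smul_apply] at h
    exact (smul_eq_zero.1 h).resolve_left (pow_ne_zero _ (inv_ne_zero (pow_ne_zero _ h0)))

lemma gen_eq (hp : p.Prime) (n : ℕ) : gen X n = genS ⊤ (frT (nF X) n) := gen_eq' X hp n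

lemma B_nF (hp : p.Prime) (x y : V) : X.B (nF X x) (nF X y) = X.B x y := by
  have h0 := q_ne (a := a) (K := K) hp
  rw [nF, LinearMap.smul_apply, LinearMap.smul_apply, map_smul, map_smul, LinearMap.smul_apply,
    X.B_F, smul_eq_mul, smul_eq_mul]
  field_simp

lemma nF_pow (m : ℕ) (x : V) : (nF X ^ m) x = (((p : K) ^ a) ^ m)⁻¹ • (X.F ^ m) x := by
  rw [nF, smul_pow, inv_pow, LinearMap.smul_apply]

lemma exists_xy (hp : p.Prime) (hN : X.N ≠ ⊥) :
    ∃ x ∈ tateS ⊤ (nF X), ∃ y ∈ tateS ⊤ (nF X), X.B x y ≠ 0 := by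
  obtain ⟨x, hx, hx0⟩ := Submodule.exists_mem_ne_zero_of_ne_bot hN
  have h1 : ∃ y ∈ X.N, X.B x y ≠ 0 := by
    by_contra hcon
    push Not at hcon
    exact hx0 (X.N_nondeg x hx hcon)
  obtain ⟨y, hy, hxy⟩ := h1
  obtain ⟨m, hm, h2⟩ := X.N_F
  have h3 : ∀ z ∈ X.N, z ∈ tateS ⊤ (nF X) := by
    intro z hz
    refine ⟨Submodule.mem_top, m, hm, ?_⟩
    rw [nF_pow, h2 z hz, smul_smul, inv_mul_cancel₀ (pow_ne_zero _ (q_ne hp)), one_smul]
  exact ⟨x, h3 x hx, y, h3 y hy, hxy⟩

lemma ss_iff (hp : p.Prime) : X.Semisimple ↔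
    ∀ α, (nF X).maxGenEigenspace α = (nF X).eigenspace α := by
  have h0 := q_ne (a := a) (K := K) hp
  have key : ∀ (α : K) (k : ℕ) (x : V), ((nF X - α • (1 : Module.End K V)) ^ k) x = 0 ↔
      ((X.F - (((p : K) ^ a) * α) • (1 : Module.End K V)) ^ k) x = 0 := by
    intro α k x
    have e : nF X - α • (1 : Module.End K V) =
        ((p : K) ^ a)⁻¹ • (X.F - (((p : K) ^ a) * α) • (1 : Module.End K V)) := by
      rw [nF, smul_sub, smul_smul, ← mul_assoc, inv_mul_cancel₀ h0, one_mul]
    rw [e, smul_pow, LinearMap.smul_apply, smul_eq_zero_iff_right (pow_ne_zero _ (inv_ne_zero h0))]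
  have hm : ∀ (α : K), (nF X).maxGenEigenspace α = X.F.maxGenEigenspace (((p : K) ^ a) * α) := by
    intro α
    ext x
    rw [Module.End.mem_maxGenEigenspace, Module.End.mem_maxGenEigenspace]
    exact exists_congr fun k => key α k x
  have he : ∀ (α : K), (nF X).eigenspace α = X.F.eigenspace (((p : K) ^ a) * α) := by
    intro α
    ext x
    rw [Module.End.mem_eigenspace_iff, Module.End.mem_eigenspace_iff]
    have := key α 1 x
    rw [pow_one, pow_one, LinearMap.sub_apply, LinearMap.sub_apply, LinearMap.smul_apply,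
      LinearMap.smul_apply, Module.End.one_apply, sub_eq_zero, sub_eq_zero] at this
    exact this
  constructor
  · intro h α
    rw [hm, he]
    exact h _
  · intro h α
    have := h (((p : K) ^ a)⁻¹ * α)
    rw [hm, he, ← mul_assoc, mul_inv_cancel₀ h0, one_mul] at this
    exact this

end Proof

/-- **Tate classes on the powers of a surface and the semisimplicity of Frobenius.** -/
theorem result (b : ℕ) : ∃ C : ℝ, 0 < C ∧ ∀ {p a : ℕ} {K V : Type u} [Field K] [CharZero K]
    [IsAlgClosed K] [AddCommGroup V] [Module K V] [Module.Finite K V] (X : SurfaceH2 p a K V),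
    p.Prime → X.N ≠ ⊥ → finrank K V = b → ∀ n : ℕ, 1 ≤ n →
    -- (1) there are many generalised Tate classes
    (b : ℝ) ^ n ≤ C * ((n : ℝ) + 1) ^ b * genDim X n ∧
    -- (2) the semisimple case
    (X.Semisimple → AllEqual X n) ∧
    -- (3) the other case
    (¬ X.Semisimple → ExactOrders C X n) ∧
    -- (4) criteria for semisimplicity from one value of `n`
    (Enough C X n → X.Semisimple) := by
  obtain ⟨C, hC0, hC⟩ := Pool.Agent.K1H13.G.ten_law.{u} b
  refine ⟨C + C ^ 2 + b, by positivity, ?_⟩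
  intro p a K V _ _ _ _ _ _ X hp hN hb n hn
  have hxy := exists_xy X hp hN
  have hss := ss_iff X hp
  have hlaw := fun h : ¬ X.Semisimple => hC hb X.B_nondeg (B_nF X hp) hxy
    (fun h' => h (hss.2 h')) n hn
  have hbR : (0 : ℝ) ≤ b := Nat.cast_nonneg _
  have hC2 : 0 ≤ C ^ 2 := sq_nonneg C
  have hle : C ≤ C + C ^ 2 + b := by linarith
  have hle2 : C ^ 2 ≤ C + C ^ 2 + b := by linarith
  have hle3 : (b : ℝ) ≤ C + C ^ 2 + b := by linarith
  have ht0 : (0 : ℝ) ≤ tateDim X n := Nat.cast_nonneg _
  have hg0 : (0 : ℝ) ≤ genDim X n := Nat.cast_nonneg _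
  have hn0 : (0 : ℝ) ≤ n := Nat.cast_nonneg _
  have hnR : (1 : ℝ) ≤ n := by exact_mod_cast hn
  have hs0 := Real.sqrt_nonneg (n : ℝ)
  have hs1 : (0 : ℝ) < Real.sqrt n := Real.sqrt_pos.2 (by linarith)
  have hs2 : Real.sqrt n ^ 2 = n := Real.sq_sqrt hn0
  have et : tateDim X n = Set.finrank K (Pool.Agent.K1H13.G.tateS ⊤
      (Pool.Agent.K1H13.G.frT (nF X) n)) := by rw [tateDim, tate_eq X hp]; rfl
  have eg : genDim X n = Set.finrank K (Pool.Agent.K1H13.G.genS ⊤
      (Pool.Agent.K1H13.G.frT (nF X) n)) := by rw [genDim, gen_eq X hp]; rfl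
  have hfin : Module.Finite K (Pow K V n) :=
    inferInstanceAs (Module.Finite K (⨂[K] (_ : Fin n), V))
  have er : ∀ Z, cupRank X n Z =
      Pool.Agent.K1H13.G.rankOn (Pool.Agent.K1H13.G.foT X.B n) Z := fun Z =>
    (Nat.eq_sub_of_add_eq (Pool.Agent.K1H13.G.rankOn_add (W := Pow K V n) (cup X n) Z)).symm
  have es : tateSpan X n = Submodule.span K (Pool.Agent.K1H13.G.tateS ⊤
      (Pool.Agent.K1H13.G.frT (nF X) n)) := by rw [tateSpan, tate_eq X hp]; rfl
  have e3 : ¬ X.Semisimple → (genDim X n : ℝ) ≤ C * Real.sqrt n * tateDim X n ∧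
      Real.sqrt n * tateDim X n ≤ C * genDim X n := by
    intro h
    obtain ⟨h1, h2, -, -⟩ := hlaw h
    rw [et, eg]
    exact ⟨h1, by linarith⟩
  have e4 : ¬ X.Semisimple →
      (genDim X n : ℝ) ≤ C * Real.sqrt n ^ 3 * cupRank X n (tateSpan X n) ∧
      Real.sqrt n ^ 3 * cupRank X n (tateSpan X n) ≤ C * genDim X n := by
    intro h
    obtain ⟨-, -, h3, h4⟩ := hlaw h
    rw [er, eg, es]
    exact ⟨h3, by linarith⟩
  have f3 : ¬ X.Semisimple → SameOrder (C + C ^ 2 + b) (genDim X n)
      (Real.sqrt n * tateDim X n) := by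
    intro h
    obtain ⟨h1, h2⟩ := e3 h
    constructor
    · rw [mul_assoc] at h1
      refine h1.trans ?_
      gcongr
    · refine h2.trans ?_
      gcongr
  have f4 : ¬ X.Semisimple → SameOrder (C + C ^ 2 + b) (genDim X n)
      (Real.sqrt n ^ 3 * cupRank X n (tateSpan X n)) := by
    intro h
    obtain ⟨h1, h2⟩ := e4 h
    constructor
    · rw [mul_assoc] at h1
      refine h1.trans ?_
      gcongr
    · refine h2.trans ?_
      gcongr
  refine ⟨?_, ?_, fun h => ⟨f3 h, f4 h⟩, ?_⟩
  · have h1 := Pool.Agent.K1H13.G.ten_growth X.B_nondeg (B_nF X hp) hxy n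
    rw [hb, ← eg] at h1
    have h2 : (b : ℝ) ^ n ≤ b * ((n : ℝ) + 1) ^ b * genDim X n := by exact_mod_cast h1
    refine h2.trans ?_
    gcongr
  · intro h
    have h1 := Pool.Agent.K1H13.G.ten_ss X.B_nondeg (B_nF X hp) (hss.1 h) n
    unfold AllEqual
    rw [er, et, eg, es]
    exact h1
  · intro h
    by_contra hcon
    rcases h with h | ⟨Z, hZ, h⟩
    · obtain ⟨-, h2⟩ := f3 hcon
      linarith
    obtain ⟨h1, -⟩ := e3 hcon
    obtain ⟨-, h4⟩ := e4 hcon
    have h5 : (cupRank X n Z : ℝ) ≤ cupRank X n (tateSpan X n) := by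
      have := Pool.Agent.K1H13.G.rankOn_mono (W := Pow K V n) (cup X n) hZ
      rw [er, er]
      exact_mod_cast this
    have h6 : Real.sqrt n ^ 3 * cupRank X n Z ≤ C * genDim X n := by
      refine le_trans ?_ h4
      gcongr
    rcases h with h | h
    · have h3 : C * genDim X n ≤ (C + C ^ 2 + b) * genDim X n := by gcongr
      linarith
    · have h7 : Real.sqrt n ^ 3 * cupRank X n Z ≤ C * (C * Real.sqrt n * tateDim X n) :=
        h6.trans (by gcongr)
      have h8 : Real.sqrt n * (n * cupRank X n Z) ≤ Real.sqrt n * (C ^ 2 * tateDim X n) := by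
        calc Real.sqrt n * (n * cupRank X n Z)
            = Real.sqrt n * (Real.sqrt n ^ 2 * cupRank X n Z) := by rw [hs2]
          _ = Real.sqrt n ^ 3 * cupRank X n Z := by ring
          _ ≤ C * (C * Real.sqrt n * tateDim X n) := h7
          _ = _ := by ring
      have h9 := le_of_mul_le_mul_left h8 hs1
      have h10 : C ^ 2 * tateDim X n ≤ (C + C ^ 2 + b) * tateDim X n := by gcongr
      linarith

end Pool.Agent.Results.MP_1fe969_ag.GrowthOnPowers
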