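import Pool.Agent.K1H70.FP.Sym

/-!
# Semisimplicity of Frobenius on `H²` of surfaces with symmetries

Let `𝒳` be a smooth projective surface over the field `k` with `q` elements and `G` a group of automorphisms of `𝒳`
over `k` (any group). Let `K i` be finite abelian subgroups of `G` of order `p i ^ r i`, where the `p i` are any
primes (they may be different, and one of them may be `ℓ`), acting trivially on the first cohomology group (for
instance the first Betti number is `0`), and `ψ i ≠ 1` a character of `K i`.

`S` is the set of the geometric points of `𝒳`, `Fr` the Frobenius of `𝒳`, a permutation of `S` that commutes with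
`G`; `V = H²(𝒳, E)` with `E` an algebraic closure of the field of `ℓ`-adic numbers, `Φ` the Frobenius on `V` and
`ρ g` the automorphism of `V` given by the inverse of `g`. The Grothendieck-Lefschetz formula for the composition of
the `m`-th power of the Frobenius with the inverse of `g` is `hL`: the fixed points are the `x` with
`Fr ^ m x = g x`, and `c m = 1 - tr (Fr ^ m | H¹) - tr (Fr ^ m | H³) + q ^ (2 m)` is the contribution of the other
degrees, which does not depend on `g`.

Let `𝒴 i` be the part of the quotient `𝒳 / K i` where the stabilizers (in `K i`) are contained in the kernel of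
`ψ i`; the number of its points over the extension of degree `m` is `orbCount Fr (K i) (ψ i) m`. Its zeta function
`exp (∑ orbCount Fr (K i) (ψ i) m T ^ m / m)` is a quotient of integral polynomials with constant term `1`, and
`H i` is the reduction modulo `p i` of the inverse of the zeta function, a polynomial of degree at most `dim V i`
(with equality if `p i` does not divide `q`), `V i` the part of `V` where `K i` acts by `ψ i`.

`W` is a subspace of `V` stable under Frobenius, for instance the span of the classes of divisors, or the second
cohomology of a quotient of `𝒳` by a subgroup, such that `V` is spanned by `W` and the `G`-translates of the `V i`.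

Theorem. (1) Suppose that `(1 - q T) ^ 2` does not divide any `H i`, and that the Frobenius is semisimple on the
generalized eigenspace of `q ζ` in `W`, where `ζ` is a root of unity whose order is a power of `p i` for all `i` (so
`ζ = 1` if there are several primes). Then it is semisimple on the generalized eigenspace of `q ζ` in `V`. For `ζ = 1`
this says that the dimension of the space of the Tate classes is the order of the pole of the zeta function of `𝒳`
at `1`.
(2) Suppose that the `H i` are squarefree of degree `dim V i` and that `W` is spanned by eigenvectors of Frobenius (for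
instance it is spanned by classes of divisors). Then the Frobenius is semisimple on `V`.

The starting file `TateEigenvalueModP` treats the cyclic coverings of the plane branched along one smooth curve
(there `H = (1 - T) P`). Our previous hand-in, now contained in this one, was the case where `G` itself is abelian of
prime power order and all `K i = G`. On the isotypic parts of irreducible representations of `G` of dimension `d > 1` the
multiplicities of the eigenvalues of Frobenius are multiples of `d`, and only a generating small part can have a
squarefree polynomial. Examples: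

* free actions, `p_g(𝒳 / K) = q(𝒳) = 0`: for all `ψ ≠ 1` the polynomial `H` is `(1 - T) (1 - q ^ 2 T) det(1 - q F T)`
  modulo `p`, with `F` the Frobenius on the Neron-Severi group of `𝒳 / K`;
* bicyclic planes `y ^ (p ^ s) = F`, `z ^ (p ^ t) = G`, where the smooth plane curves `F = 0` and `G = 0` intersect
  transversally: `H` is `(1 - T) P_F`, `(1 - T) P_G` or `P_F P_G ∏ (1 - T ^ l) / (1 - T)`, with `l` running
  through the degrees of the closed points of the intersection. If the degrees of the two coverings are powers of
  two different primes `p₁`, `p₂`, the group is not of prime power order: then `K 1` and `K 2` are its two factors.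
-/

set_option autoImplicit false

namespace Pool.Agent.Results.MP_1fe969_ag.SymmetryGroups

open Polynomial Pool.Agent.K1H70.FP Pool.Agent.K1H70.FS

theorem result (q : ℕ)
    -- the geometric points, the Frobenius, the symmetries
    (G : Type) [Group G] (S : Type) [MulAction G S] (Fr : Equiv.Perm S)
    (hFr : ∀ (g : G) (x : S), Fr (g • x) = g • Fr x)
    -- the second cohomology group
    (E : Type) [Field E] [CharZero E] [IsAlgClosed E]
    (V : Type) [AddCommGroup V] [Module E V] [FiniteDimensional E V]
    (Φ : Module.End E V) (ρ : G →* Module.End E V) (hc : ∀ g, Commute Φ (ρ g)) (c : ℕ → E)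
    -- abelian subgroups of prime power order and their characters
    (ι : Type) (K : ι → Subgroup G) (hcomm : ∀ i, ∀ g ∈ K i, ∀ h ∈ K i, g * h = h * g)
    (p r : ι → ℕ) (hp : ∀ i, (p i).Prime) (hK : ∀ i, Nat.card (K i) = p i ^ r i)
    (ψ : ∀ i, K i →* Eˣ) (hψ : ∀ i, ψ i ≠ 1)
    -- the Lefschetz formula
    (hfin : ∀ i, ∀ m : ℕ, 1 ≤ m → ∀ g ∈ K i, {x : S | (Fr ^ m) x = g • x}.Finite)
    (hL : ∀ i, ∀ m : ℕ, 1 ≤ m → ∀ g ∈ K i, c m + LinearMap.trace E V (Φ ^ m * ρ g)
      = ({x : S | (Fr ^ m) x = g • x}.ncard : E))
    -- the zeta functions modulo the primes
    (H : ∀ i, (ZMod (p i))[X]) (hH : ∀ i, ZetaMod E (p i) 2 (orbCount Fr (K i) (ψ i)) (H i))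
    -- the parts and `W` generate the cohomology
    (W : Submodule E V) (hW : ∀ v ∈ W, Φ v ∈ W)
    (hgen : (⨆ i, ⨆ g : G, (eigenPart ρ (K i) (ψ i)).map (ρ g)) ⊔ W = ⊤) :
    (∀ ζ : E, (∀ i, ∃ b : ℕ, ζ ^ p i ^ b = 1) →
      (∀ i, ¬ (1 - C (q : ZMod (p i)) * X) ^ 2 ∣ H i) →
      (∀ v ∈ W, v ∈ Φ.maxGenEigenspace ((q : E) * ζ) → Φ v = ((q : E) * ζ) • v) →
      Φ.maxGenEigenspace ((q : E) * ζ) = Φ.eigenspace ((q : E) * ζ)) ∧
    ((∀ i, Squarefree (H i) ∧ (H i).natDegree = Module.finrank E (eigenPart ρ (K i) (ψ i))) →
      W ≤ ⨆ α, Φ.eigenspace α → Φ.IsSemisimple) := by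
  have h := main_sym Fr hFr Φ ρ hc 2 c K hcomm p r hp hK hfin (by
    intro i m hm g hg
    rw [← hL i m hm g hg]
    norm_num) ψ hψ H hH W hW hgen
  refine ⟨?_, h.1⟩
  intro ζ hζ h1 h2
  have h3 := h.2 (q : ℤ) ζ hζ (by simpa using h1) (by simpa using h2)
  simpa using h3

end Pool.Agent.Results.MP_1fe969_ag.SymmetryGroups
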